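import Pool.Agent.P.MP_b90bcc_co.Exa

set_option autoImplicit false

open Pool.Agent.P.MP_b90bcc_co

theorem Pool.Agent.Results.MP_b90bcc_co.ExactRange.result (k s : ℕ) (hs : 0 < s) :
    (∃ N : ℕ, ∀ (n : ℕ) (r : Fin n → Fin n → Prop), IsTournament r → N ≤ pod r →
      ∃ X : Finset (Fin n), X.card ≤ k ∧ s ≤ pod (fun a b : X => r a b)) ↔
    (s = 1 ∧ 2 ≤ k) ∨ (s = 2 ∧ 3 ≤ k) ∨ (s = 3 ∧ 3 ≤ k) :=
  Exa.exact_range k s hs

/-- For every `s ≥ 4` the statement fails for every `k`, and some `k` is admissible. -/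
theorem Pool.Agent.Results.MP_b90bcc_co.ExactRange.fails (s : ℕ) (hs : 4 ≤ s) :
    (∃ k : ℕ, 0 < k ∧
      ∃ (n : ℕ) (r : Fin n → Fin n → Prop), IsTournament r ∧ n ≤ k ∧ s ≤ pod r) ∧
    ∀ k N : ℕ, ∃ (n : ℕ) (r : Fin n → Fin n → Prop), IsTournament r ∧ N ≤ pod r ∧
      ∀ X : Finset (Fin n), X.card ≤ k → pod (fun a b : X => r a b) < s := by
  have h : ∀ k N : ℕ, ∃ (n : ℕ) (r : Fin n → Fin n → Prop), IsTournament r ∧ N ≤ pod r ∧
      ∀ X : Finset (Fin n), X.card ≤ k → pod (fun a b : X => r a b) < s := by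
    intro k N
    by_contra hno
    have := (Pool.Agent.Results.MP_b90bcc_co.ExactRange.result k s (by omega)).1
      ⟨N, fun n r h1 h2 => by
        by_contra h3
        exact hno ⟨n, r, h1, h2, fun X hX => not_le.1 fun h4 => h3 ⟨X, hX, h4⟩⟩⟩
    omega
  obtain ⟨n, r, h1, h2, -⟩ := h 0 s
  exact ⟨⟨n + 1, Nat.succ_pos n, n, r, h1, Nat.le_succ n, h2⟩, h⟩

/-- The negated form of Q1 in its own words. -/
theorem Pool.Agent.Results.MP_b90bcc_co.ExactRange.negated :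
    ∃ k s : ℕ, 0 < k ∧ 0 < s ∧
      (∃ (n : ℕ) (r : Fin n → Fin n → Prop), IsTournament r ∧ n ≤ k ∧ s ≤ pod r) ∧
      ∀ N : ℕ, ∃ (n : ℕ) (r : Fin n → Fin n → Prop), IsTournament r ∧ N ≤ pod r ∧
        ∀ X : Finset (Fin n), X.card ≤ k → pod (fun a b : X => r a b) < s := by
  obtain ⟨⟨k, hk, hw⟩, h⟩ := Pool.Agent.Results.MP_b90bcc_co.ExactRange.fails 4 le_rfl
  exact ⟨k, 4, hk, by norm_num, hw, h k⟩

/-- For the pairs that Q1 admits, its statement holds exactly when `s ≤ 3`. -/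
theorem Pool.Agent.Results.MP_b90bcc_co.ExactRange.admissible (k s : ℕ) (hs : 0 < s)
    (hw : ∃ (n : ℕ) (r : Fin n → Fin n → Prop), IsTournament r ∧ n ≤ k ∧ s ≤ pod r) :
    (∃ N : ℕ, ∀ (n : ℕ) (r : Fin n → Fin n → Prop), IsTournament r → N ≤ pod r →
      ∃ X : Finset (Fin n), X.card ≤ k ∧ s ≤ pod (fun a b : X => r a b)) ↔ s ≤ 3 := by
  obtain ⟨m, t, ht, hm, hp⟩ := hw
  have h1 := Exa.two_le_card ht (le_trans hs hp)
  have h2 := fun h : 2 ≤ s => Exa.three_le_card ht (h.trans hp)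
  rw [Fintype.card_fin] at h1 h2
  rw [Pool.Agent.Results.MP_b90bcc_co.ExactRange.result k s hs]
  omega

/-- The earlier disproof, word for word. -/
theorem Pool.Agent.Results.MP_b90bcc_co.ExactRange.disproof :
    ∃ s : ℕ, 0 < s ∧
      (∃ k : ℕ, 0 < k ∧
        ∃ (n : ℕ) (r : Fin n → Fin n → Prop), IsTournament r ∧ n ≤ k ∧ s ≤ pod r) ∧
      ∀ k N : ℕ, ∃ (n : ℕ) (r : Fin n → Fin n → Prop), IsTournament r ∧ N ≤ pod r ∧
        ∀ X : Finset (Fin n), X.card ≤ k → pod (fun a b : X => r a b) < s :=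
  ⟨4, by norm_num, Pool.Agent.Results.MP_b90bcc_co.ExactRange.fails 4 le_rfl⟩
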