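import Pool.Agent.P.MP_b90bcc_co.LinB

set_option autoImplicit false

open Pool.Agent.P.MP_b90bcc_co

theorem Pool.Agent.Results.MP_b90bcc_co.LinearSize.result (N : ℕ) :
    ∃ ε : ℝ, 0 < ε ∧ ∃ n₀ : ℕ, ∀ n : ℕ, n₀ ≤ n →
      ∃ r : Fin n → Fin n → Prop, IsTournament r ∧ N ≤ pod r ∧
        ∀ X : Finset (Fin n), (X.card : ℝ) ≤ ε * n → pod (fun a b : X => r a b) ≤ 4 :=
  Lin.linear N

/-- The negated form of Q1 in its own words, with `s = 5`. -/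
theorem Pool.Agent.Results.MP_b90bcc_co.LinearSize.negated :
    ∃ k s : ℕ, 0 < k ∧ 0 < s ∧
      (∃ (n : ℕ) (r : Fin n → Fin n → Prop), IsTournament r ∧ n ≤ k ∧ s ≤ pod r) ∧
      ∀ N : ℕ, ∃ (n : ℕ) (r : Fin n → Fin n → Prop), IsTournament r ∧ N ≤ pod r ∧
        ∀ X : Finset (Fin n), X.card ≤ k → pod (fun a b : X => r a b) < s := by
  obtain ⟨_, -, m, hm⟩ := Pool.Agent.Results.MP_b90bcc_co.LinearSize.result 5
  obtain ⟨t, ht, hp, -⟩ := hm m le_rfl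
  refine ⟨m + 1, 5, Nat.succ_pos m, by norm_num, ⟨m, t, ht, Nat.le_succ m, hp⟩, fun N => ?_⟩
  obtain ⟨ε, hε, n₀, h⟩ := Pool.Agent.Results.MP_b90bcc_co.LinearSize.result N
  obtain ⟨n₁, hn₁⟩ := exists_nat_ge (((m + 1 : ℕ) : ℝ) / ε)
  obtain ⟨r, h1, h2, h3⟩ := h (max n₀ n₁) (le_max_left _ _)
  refine ⟨max n₀ n₁, r, h1, h2, fun X hX => Nat.lt_succ_of_le (h3 X ?_)⟩
  have e1 : (n₁ : ℝ) ≤ (max n₀ n₁ : ℕ) := Nat.cast_le.2 (le_max_right _ _)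
  have e2 : (X.card : ℝ) ≤ (m + 1 : ℕ) := Nat.cast_le.2 hX
  rw [div_le_iff₀ hε] at hn₁
  nlinarith
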